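import Pool.Agent.W391.D7
import Pool.Agent.W391.Raag

set_option autoImplicit false

/-!
# A right-angled Artin group which embeds into no diagram group

The graph is the complement of the spider with 27 legs of length two. Its right-angled Artin
group has generators `c`, `x i`, `y i`; all pairs of generators commute except `c, x i` and
`x i, y i`.

Idea of the proof. Suppose that the group embeds into a diagram group. After a change of the base
word `W`, a generic product `Y` of the feet `y i` crosses only essential hyperplanes. The word `W`
is then cut into blocks; the elements commuting with `Y` preserve all the blocks, in every block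
the foot `y j` is either trivial or essential, and in a block where `y j` is essential the
commutator of two elements which commute with `y j` is trivial. Therefore the commutators
`[x i, y i]` live on sets of letters `X i` such that every component of `X i` has a private
letter, the conjugation with `c` preserves these sets, and no letter lies in three of the sets.
Commuting `[x i, y i]`, conjugated with distinct powers of `c`, along linear triple systems one
obtains exponentially many nontrivial elements, whose supports have a multiplicity which grows
only linearly. This is impossible, as the word `W` is finite.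
-/

namespace Pool.Agent.Results.MP_86f51d_al.NotAllEmbed

open H540DG Pool.Agent.W391 Pool.Agent.H599R3.RH Pool.Agent.H599R3.SV
open scoped commutatorElement

/-- A diagram group is a group isomorphic to the fundamental group `D(P, w)` of the Squier complex
of a semigroup presentation `P` at a nonempty word `w`. -/
def IsDiagramGroup (G : Type) [Group G] : Prop :=
  ∃ (A : Type) (P : Pres A) (w : List A), w ≠ [] ∧ Nonempty (G ≃* DiagramGroup P w)

theorem no_embedding {A : Type} {P : Pres A} {w : List A} (φ : RAAG (Gam 27) →* U P)
    (hφw : ∀ t, Pi w (φ t) w) (hφ : Function.Injective φ) : False := by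
  have hcm : ∀ u v, (Gam 27).Adj u v → φ (rgen _ u) * φ (rgen _ v) =
      φ (rgen _ v) * φ (rgen _ u) := by
    intro u v h
    rw [← map_mul, ← map_mul, rgen_comm h]
  obtain ⟨g, W, Y, h1, h2, h3, h4, h5⟩ := exists_good (W := w)
    (fun i : Fin 27 => φ (rgen _ (.y i))) (fun i => hφw _) (by
      intro i j
      by_cases hij : i = j
      · rw [hij]
      · exact hcm _ _ (adj_yy hij))
  -- the conjugated homomorphism
  set ψ : RAAG (Gam 27) →* U P := (MulAut.conj g⁻¹).toMonoidHom.comp φ with hψ
  have hψa : ∀ t, ψ t = g⁻¹ * φ t * g := by
    intro t
    rw [hψ, MonoidHom.comp_apply]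
    change MulAut.conj g⁻¹ (φ t) = _
    rw [MulAut.conj_apply, inv_inv]
  have hψi : Function.Injective ψ := by
    intro s t hst
    rw [hψa, hψa] at hst
    exact hφ (mul_left_cancel (mul_right_cancel hst))
  have hψW : ∀ t, Pi W (ψ t) W := by
    intro t
    rw [hψa]
    exact (h1.symm.trans (hφw t)).trans h1
  have hcm' : ∀ u v, (Gam 27).Adj u v → ψ (rgen _ u) * ψ (rgen _ v) =
      ψ (rgen _ v) * ψ (rgen _ u) := by
    intro u v h
    rw [← map_mul, ← map_mul, rgen_comm h]
  have D : Dat P W (Fin 27) (fun i => ψ (rgen _ (.x i))) (fun i => ψ (rgen _ (.y i)))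
      (ψ (cG 27)) Y := by
    refine ⟨h2, h3, fun i => hψW _, fun i => hψW _, hψW _, ?_, ?_, ?_, ?_, ?_, ?_⟩
    · intro i H hH
      rw [hψa] at hH
      exact h4 i H hH
    · intro i
      rw [hψa]
      apply h5
      intro j
      by_cases hij : i = j
      · rw [hij]
      · exact hcm _ _ (adj_yy hij)
    · rw [hψa]
      apply h5
      intro j
      exact hcm _ _ (adj_cy j)
    · intro i j
      by_cases hij : i = j
      · rw [hij]
      · exact hcm' _ _ (adj_yy hij)
    · intro i
      exact hcm' _ _ (adj_cy i)
    · intro i j hij
      exact hcm' _ _ (adj_xy hij)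
  refine kill (G := RAAG (Gam 27)) (ξ := xiG 27) (c := cG 27) (S := sys P W)
    (C := Dat.C W (ψ (cG 27)))
    (X := Dat.X W (fun i => ψ (rgen _ (.x i))) (fun i => ψ (rgen _ (.y i))) (ψ (cG 27)))
    (φ := ψ) Dat.bd D.gd ?_ ?_ (Equiv.refl _) D.priv (priv_mult Dat.bd D.priv) ?_ hψi
  · intro i
    have := D.sup i
    unfold xiG
    rw [map_commutatorElement]
    exact this
  · intro a ha b hb hab hbW k hk
    exact conj_GI hab.le hb.1 (hψW _) ha.2 hb.2 hk
  · intro n T Z h
    exact h.rep.ne

/-- **Main result.** There is a finite graph whose right-angled Artin group embeds into no diagram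
group. -/
theorem result : ∃ (V : Type) (_ : Finite V) (Γ : SimpleGraph V), ∀ (G : Type) [Group G],
    IsDiagramGroup G → ¬ ∃ φ : RAAG Γ →* G, Function.Injective φ := by
  refine ⟨SpV 27, inferInstance, Gam 27, ?_⟩
  rintro G _ ⟨A, P, w, -, ⟨e⟩⟩ ⟨φ, hφ⟩
  have e' : G ≃* Dg P w := e.trans (dgEquiv P w)
  refine no_embedding (w := w) ((Dg P w).subtype.comp (e'.toMonoidHom.comp φ)) ?_ ?_
  · intro t
    exact (e' (φ t)).2
  · exact (Subtype.val_injective.comp e'.injective).comp hφ

end Pool.Agent.Results.MP_86f51d_al.NotAllEmbed
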